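import Mathlib

set_option autoImplicit false

/-! # Labelled trees and ultrametrics: definitions and the ray -/

namespace Q45.RayTree

open SimpleGraph Set

universe u

/-- The metric of `V` is the metric `d_l` of the labelled graph (tree) `G(l)`: the distance of two
different points is the largest label on the path between them (endpoints included). -/
def Generates {V : Type u} [MetricSpace V] (G : SimpleGraph V) (l : V → ℝ) : Prop :=
  ∀ u v : V, u ≠ v → ∀ p : G.Walk u v, p.IsPath → IsGreatest (l '' {w | w ∈ p.support}) (dist u v)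

/-- `G` is a ray: its vertices are `x 0, x 1, …` (different) and its edges are `x n — x (n+1)`. -/
def IsRay {V : Type u} (G : SimpleGraph V) : Prop :=
  ∃ x : ℕ → V, Function.Bijective x ∧
    ∀ u v, G.Adj u v ↔ ∃ n, (u = x n ∧ v = x (n + 1)) ∨ (v = x n ∧ u = x (n + 1))

/-- `G` contains no ray as a subgraph. -/
def Rayless {V : Type u} (G : SimpleGraph V) : Prop :=
  ¬ ∃ f : ℕ → V, Function.Injective f ∧ ∀ n, G.Adj (f n) (f (n + 1))

/-- Exactly one vertex has degree greater than two. -/
def Starlike {V : Type u} (G : SimpleGraph V) : Prop :=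
  ∃! c : V, 2 < (G.neighborSet c).encard

variable {V : Type u}

/-- A graph whose edges are given by a parent function which increases a height is acyclic. -/
theorem isAcyclic_of_parent (G : SimpleGraph V) (ht : V → ℕ) (par : V → V)
    (h : ∀ u v, G.Adj u v → (par u = v ∧ ht v < ht u) ∨ (par v = u ∧ ht u < ht v)) :
    G.IsAcyclic := by
  classical
  intro v c hc
  obtain ⟨x, hx, hmax⟩ := Finset.exists_max_image c.support.toFinset ht
    ⟨v, by simp⟩
  rw [List.mem_toFinset] at hx
  have hc' : (c.rotate x hx).IsCycle := (SimpleGraph.Walk.isCycle_rotate hx).mpr hc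
  have hnil : ¬ (c.rotate x hx).Nil := hc'.not_nil
  have hmem : ∀ i, ht ((c.rotate x hx).getVert i) ≤ ht x := by
    intro i
    apply hmax
    rw [List.mem_toFinset, ← SimpleGraph.Walk.mem_support_rotate_iff c x hx]
    exact SimpleGraph.Walk.getVert_mem_support _ i
  have h1 : par x = (c.rotate x hx).snd := by
    rcases h _ _ (SimpleGraph.Walk.adj_snd hnil) with h1 | h1
    · exact h1.1
    · have := hmem 1
      have h2 : ht x < ht ((c.rotate x hx).getVert 1) := h1.2
      omega
  have h2 : par x = (c.rotate x hx).penultimate := by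
    rcases h _ _ (SimpleGraph.Walk.adj_penultimate hnil) with h1 | h1
    · have := hmem ((c.rotate x hx).length - 1)
      have h2 : ht x < ht ((c.rotate x hx).getVert ((c.rotate x hx).length - 1)) := h1.2
      omega
    · exact h1.1
  exact hc'.snd_ne_penultimate (h1.symm.trans h2)

/-- In an acyclic graph a path uses only vertices of any walk with the same ends. -/
theorem path_support_subset {G : SimpleGraph V} (hG : G.IsAcyclic) {u v : V} (p : G.Walk u v)
    (hp : p.IsPath) (q : G.Walk u v) : ∀ w ∈ p.support, w ∈ q.support := by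
  classical
  intro w hw
  have h : p = q.bypass := congrArg Subtype.val ((hG.subsingleton_path u v).elim ⟨p, hp⟩ q.toPath)
  rw [h] at hw
  exact q.support_bypass_subset_support hw

/-- A walk that leaves a set, all exits of which start at `w`, visits `w`. -/
theorem mem_support_of_exit {G : SimpleGraph V} {u v w : V} (p : G.Walk u v) (S : Set V)
    (hu : u ∈ S) (hv : v ∉ S) (hS : ∀ a ∈ S, ∀ b, b ∉ S → G.Adj a b → a = w) : w ∈ p.support := by
  obtain ⟨d, hd, h1, h2⟩ := p.exists_boundary_dart S hu hv
  rw [← hS _ h1 _ h2 d.adj]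
  exact p.dart_fst_mem_support_of_mem_darts hd

section Ray

variable {G : SimpleGraph V} {x : ℕ → V} (hx : Function.Bijective x)
  (hG : ∀ u v, G.Adj u v ↔ ∃ n, (u = x n ∧ v = x (n + 1)) ∨ (v = x n ∧ u = x (n + 1)))

include hx hG

theorem ray_acyclic : G.IsAcyclic := by
  obtain ⟨idx, h1, h2⟩ := Function.bijective_iff_has_inverse.mp hx
  refine isAcyclic_of_parent G idx (fun v => x (idx v - 1)) ?_
  intro u v huv
  obtain ⟨n, ⟨rfl, rfl⟩ | ⟨rfl, rfl⟩⟩ := (hG u v).mp huv
  · right
    simp [h1 n, h1 (n + 1)]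
  · left
    simp [h1 n, h1 (n + 1)]

omit hx in
theorem ray_walk (m j : ℕ) : ∃ q : G.Walk (x m) (x (m + j)),
    ∀ w ∈ q.support, ∃ k, m ≤ k ∧ k ≤ m + j ∧ w = x k := by
  induction j with
  | zero =>
    refine ⟨Walk.nil, ?_⟩
    intro w hw
    rw [Walk.support_nil, List.mem_singleton] at hw
    exact ⟨m, le_rfl, by omega, hw⟩
  | succ j ih =>
    obtain ⟨q, hq⟩ := ih
    have hadj : G.Adj (x (m + j)) (x (m + (j + 1))) := (hG _ _).mpr ⟨m + j, Or.inl ⟨rfl, rfl⟩⟩
    refine ⟨q.concat hadj, ?_⟩
    intro w hw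
    rw [Walk.support_concat, List.mem_append, List.mem_singleton] at hw
    rcases hw with hw | hw
    · obtain ⟨k, h1, h2, h3⟩ := hq w hw
      exact ⟨k, h1, by omega, h3⟩
    · exact ⟨m + (j + 1), by omega, le_rfl, hw⟩

theorem ray_support {m n : ℕ} (hmn : m < n) (p : G.Walk (x m) (x n)) (hp : p.IsPath) :
    {w | w ∈ p.support} = x '' Icc m n := by
  ext w
  constructor
  · intro hw
    obtain ⟨j, rfl⟩ : ∃ j, n = m + j := ⟨n - m, by omega⟩
    obtain ⟨q, hq⟩ := ray_walk hG m j
    obtain ⟨k, h1, h2, h3⟩ := hq w (path_support_subset (ray_acyclic hx hG) p hp q w hw)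
    exact ⟨k, ⟨h1, h2⟩, h3.symm⟩
  · rintro ⟨k, ⟨h1, h2⟩, rfl⟩
    rcases eq_or_lt_of_le h2 with h2 | h2
    · rw [h2]; exact p.end_mem_support
    · refine mem_support_of_exit p (x '' Iic k) ⟨m, h1, rfl⟩ ?_ ?_
      · rintro ⟨j, hj, hj'⟩
        have := hx.1 hj'
        rw [mem_Iic] at hj
        omega
      · rintro a ⟨j, hj, rfl⟩ b hb hadj
        obtain ⟨i, ⟨h3, h4⟩ | ⟨h3, h4⟩⟩ := (hG _ _).mp hadj
        · have := hx.1 h3
          subst this
          rw [mem_Iic] at hj
          have : ¬ (j + 1 ≤ k) := fun h => hb ⟨j + 1, h, h4.symm⟩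
          have : j = k := by omega
          rw [this]
        · exfalso
          have := hx.1 h4
          rw [mem_Iic] at hj
          exact hb ⟨i, by rw [mem_Iic]; omega, h3.symm⟩

end Ray

theorem ray_generates_iff [MetricSpace V] {G : SimpleGraph V} {x : ℕ → V}
    (hx : Function.Bijective x)
    (hG : ∀ u v, G.Adj u v ↔ ∃ n, (u = x n ∧ v = x (n + 1)) ∨ (v = x n ∧ u = x (n + 1)))
    (l : V → ℝ) :
    Generates G l ↔ ∀ m n, m < n → IsGreatest ((fun k => l (x k)) '' Icc m n) (dist (x m) (x n)) := by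
  classical
  have him : ∀ m n, l '' (x '' Icc m n) = (fun k => l (x k)) '' Icc m n := fun m n => by
    rw [image_image]
  constructor
  · intro h m n hmn
    obtain ⟨j, rfl⟩ : ∃ j, n = m + j := ⟨n - m, by omega⟩
    obtain ⟨q, hq⟩ := ray_walk hG m j
    have h1 := h (x m) (x (m + j)) (fun he => by have := hx.1 he; omega) q.bypass
      (q.bypass_isPath)
    rwa [ray_support hx hG hmn q.bypass q.bypass_isPath, him] at h1
  · intro h u v huv p hp
    obtain ⟨m, rfl⟩ := hx.2 u
    obtain ⟨n, rfl⟩ := hx.2 v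
    rcases lt_trichotomy m n with hmn | hmn | hmn
    · rw [ray_support hx hG hmn p hp, him]
      exact h m n hmn
    · exact absurd (congrArg x hmn) huv
    · have h1 : {w | w ∈ p.support} = {w | w ∈ p.reverse.support} := by
        ext w; simp
      rw [h1, ray_support hx hG hmn p.reverse hp.reverse, him, _root_.dist_comm]
      exact h n m hmn

end Q45.RayTree
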