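import Pool.Agent.Q45.RayTree.Basic

set_option autoImplicit false
set_option linter.unusedSectionVars false

/-! # A compact ultrametric space generated by a labelled starlike rayless tree: its points other
than the centre, in a suitable order, form a labelled ray -/

namespace Q45.RayTree.B

open SimpleGraph Set Filter Topology Q45.RayTree

universe u

variable {X : Type u}

section Par

variable {T : SimpleGraph X} (hT : T.IsTree) (c : X)

/-- the path from `v` to the centre -/
noncomputable def P (v : X) : T.Walk v c := (hT.existsUnique_path v c).choose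

theorem P_isPath (v : X) : (P hT c v).IsPath := (hT.existsUnique_path v c).choose_spec.1

theorem P_unique {v : X} (q : T.Walk v c) (hq : q.IsPath) : q = P hT c v :=
  (hT.existsUnique_path v c).choose_spec.2 q hq

/-- the neighbour of `v` on the path from `v` to the centre -/
noncomputable def par (v : X) : X := (P hT c v).snd

/-- the depth of `v` -/
noncomputable def dep (v : X) : ℕ := (P hT c v).length

theorem P_not_nil {v : X} (hv : v ≠ c) : ¬ (P hT c v).Nil := fun h => hv h.eq

theorem adj_par {v : X} (hv : v ≠ c) : T.Adj v (par hT c v) :=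
  Walk.adj_snd (P_not_nil hT c hv)

theorem P_par {v : X} : (P hT c v).tail = P hT c (par hT c v) :=
  P_unique hT c _ (P_isPath hT c v).tail

theorem dep_par {v : X} (hv : v ≠ c) : dep hT c v = dep hT c (par hT c v) + 1 := by
  have h1 := Walk.length_tail_add_one (P_not_nil hT c hv)
  have h2 : (P hT c v).tail.length = (P hT c (par hT c v)).length :=
    congrArg Walk.length (P_par hT c)
  unfold dep
  omega

theorem dep_c : dep hT c c = 0 := by
  unfold dep
  rw [← P_unique hT c Walk.nil Walk.IsPath.nil]
  rfl

theorem par_c : par hT c c = c := by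
  unfold par
  rw [← P_unique hT c Walk.nil Walk.IsPath.nil]
  rfl

theorem par_of_adj {u v : X} (h : T.Adj u v) : par hT c u = v ∨ par hT c v = u := by
  classical
  by_cases hv : v ∈ (P hT c u).support
  · left
    have h1 : (Walk.cons h ((P hT c u).dropUntil v hv)).IsPath := by
      rw [Walk.cons_isPath_iff]
      refine ⟨(P_isPath hT c u).dropUntil hv, ?_⟩
      intro hu
      have h2 := (P_isPath hT c u).support_nodup
      rw [← Walk.take_spec (P hT c u) hv, Walk.support_append] at h2
      have h3 := (List.nodup_append.mp h2).2.2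
      have h4 : u ∈ ((P hT c u).dropUntil v hv).support.tail := by
        rw [← Walk.cons_tail_support, List.mem_cons] at hu
        exact hu.resolve_left h.ne
      exact h3 u (Walk.start_mem_support _) u h4 rfl
    have h2 := P_unique hT c _ h1
    unfold par
    rw [← h2, Walk.snd_cons]
  · right
    have h1 : (Walk.cons h.symm (P hT c u)).IsPath := by
      rw [Walk.cons_isPath_iff]
      exact ⟨P_isPath hT c u, hv⟩
    have h2 := P_unique hT c _ h1
    unfold par
    rw [← h2, Walk.snd_cons]

end Par

/-- the data extracted from the tree -/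
structure Leg (T : SimpleGraph X) (c : X) (par : X → X) (δ : X → ℕ) : Prop where
  adj : ∀ v, v ≠ c → T.Adj v (par v)
  dep : ∀ v, v ≠ c → δ v = δ (par v) + 1
  dep_c : δ c = 0
  par_c : par c = c
  of_adj : ∀ u v, T.Adj u v → par u = v ∨ par v = u
  inj : ∀ u v, u ≠ c → v ≠ c → par u = par v → par u ≠ c → u = v
  conn : T.Preconnected

theorem leg_of_tree {T : SimpleGraph X} (hT : T.IsTree) (c : X)
    (hdeg : ∀ v, v ≠ c → (T.neighborSet v).encard ≤ 2) : Leg T c (par hT c) (dep hT c) where
  adj v hv := adj_par hT c hv
  dep v hv := dep_par hT c hv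
  dep_c := dep_c hT c
  par_c := par_c hT c
  of_adj u v h := par_of_adj hT c h
  conn := hT.connected.preconnected
  inj := by
    intro u v hu hv huv hw
    by_contra hne
    have h1 : u ∈ T.neighborSet (par hT c u) := (adj_par hT c hu).symm
    have h2 : v ∈ T.neighborSet (par hT c u) := by rw [huv]; exact (adj_par hT c hv).symm
    have h3 : par hT c (par hT c u) ∈ T.neighborSet (par hT c u) := adj_par hT c hw
    have h4 := dep_par hT c hu
    have h5 := dep_par hT c hv
    have h6 := dep_par hT c hw
    rw [← huv] at h5
    have h7 : ({u, v, par hT c (par hT c u)} : Set X).encard = 3 := by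
      refine Set.encard_eq_three.mpr ⟨u, v, _, hne, ?_, ?_, rfl⟩
      · intro h; rw [← h] at h6; omega
      · intro h; rw [← h] at h6; omega
    have h8 : ({u, v, par hT c (par hT c u)} : Set X) ⊆ T.neighborSet (par hT c u) := by
      rintro y (rfl | rfl | rfl)
      · exact h1
      · exact h2
      · exact h3
    have h9 := (Set.encard_le_encard h8).trans (hdeg _ hw)
    rw [h7] at h9
    exact absurd h9 (by norm_num)

section Legs

variable {T : SimpleGraph X} {c : X} {par : X → X} {δ : X → ℕ} (L : Leg T c par δ)

include L

theorem dep_pos {v : X} (hv : v ≠ c) : 0 < δ v := by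
  rw [L.dep v hv]; omega

theorem ne_of_pos {v : X} (hv : 0 < δ v) : v ≠ c := by
  rintro rfl
  rw [L.dep_c] at hv
  omega

theorem dep_iter {v : X} {i : ℕ} (h : i ≤ δ v) : δ (par^[i] v) = δ v - i := by
  induction i with
  | zero => rfl
  | succ i ih =>
    rw [Function.iterate_succ_apply']
    have h1 := ih (by omega)
    have h2 := L.dep (par^[i] v) (ne_of_pos L (by omega))
    omega

theorem iter_ne {v : X} {i : ℕ} (h : i < δ v) : par^[i] v ≠ c :=
  ne_of_pos L (by rw [dep_iter L h.le]; omega)

theorem iter_dep (v : X) : par^[δ v] v = c := by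
  by_contra h
  have h1 := dep_pos L h
  rw [dep_iter L le_rfl] at h1
  omega

/-- the neighbour of the centre below `v` -/
def leg (par : X → X) (δ : X → ℕ) (v : X) : X := par^[δ v - 1] v

theorem leg_iter {v : X} {i : ℕ} (h : i < δ v) : leg par δ (par^[i] v) = leg par δ v := by
  unfold leg
  rw [dep_iter L h.le, ← Function.iterate_add_apply]
  congr 1
  omega

/-- Two points of one leg: the one which is nearer to the centre is an ancestor of the other. -/
theorem eq_iter {u v : X} (hu : u ≠ c) (hv : v ≠ c) (hl : leg par δ u = leg par δ v)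
    (hd : δ u ≤ δ v) : u = par^[δ v - δ u] v := by
  have hu' := dep_pos L hu
  have hv' := dep_pos L hv
  have key : ∀ j, j < δ u → par^[δ u - 1 - j] u = par^[δ v - 1 - j] v := by
    intro j
    induction j with
    | zero => intro _; exact hl
    | succ j ih =>
      intro hj
      have h1 := ih (by omega)
      refine L.inj _ _ (iter_ne L (by omega)) (iter_ne L (by omega)) ?_ ?_
      · rw [← Function.iterate_succ_apply' par, ← Function.iterate_succ_apply' par]
        convert h1 using 2
        · omega
        · omega
      · rw [← Function.iterate_succ_apply' par]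
        exact iter_ne L (by omega)
  have h2 := key (δ u - 1) (by omega)
  rw [Nat.sub_self] at h2
  have h3 : δ v - 1 - (δ u - 1) = δ v - δ u := by omega
  rw [h3] at h2
  exact h2

theorem path_iter (k : ℕ) : ∀ v u : X, k ≤ δ v → par^[k] v = u → ∃ q : T.Walk v u, q.IsPath ∧
    ∀ w, w ∈ q.support ↔ ∃ i, i ≤ k ∧ w = par^[i] v := by
  induction k with
  | zero =>
    intro v u _ hu
    have hu' : v = u := hu
    subst hu'
    refine ⟨Walk.nil, Walk.IsPath.nil, ?_⟩
    intro w
    rw [Walk.support_nil, List.mem_singleton]
    constructor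
    · rintro rfl
      exact ⟨0, le_rfl, rfl⟩
    · rintro ⟨i, hi, rfl⟩
      have : i = 0 := by omega
      rw [this]; rfl
  | succ k ih =>
    intro v u hk hu
    have hv : v ≠ c := ne_of_pos L (by omega)
    have h1 := L.dep v hv
    obtain ⟨q, hq, hs⟩ := ih (par v) u (by omega) hu
    refine ⟨Walk.cons (L.adj v hv) q, ?_, ?_⟩
    · rw [Walk.cons_isPath_iff]
      refine ⟨hq, ?_⟩
      intro h
      obtain ⟨i, hi, hi'⟩ := (hs v).mp h
      have h2 := congrArg δ hi'
      rw [dep_iter L (by omega)] at h2
      omega
    · intro w
      rw [Walk.support_cons, List.mem_cons, hs]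
      constructor
      · rintro (rfl | ⟨i, hi, rfl⟩)
        · exact ⟨0, by omega, rfl⟩
        · exact ⟨i + 1, by omega, rfl⟩
      · rintro ⟨i, hi, rfl⟩
        rcases Nat.eq_zero_or_pos i with rfl | hi0
        · exact Or.inl rfl
        · right
          refine ⟨i - 1, by omega, ?_⟩
          rw [← Function.iterate_succ_apply par]
          congr 1
          omega

/-- A walk from `x` that ends outside of the descendants of the ancestor `z` of `x` visits `z`. -/
theorem anc_mem {x y : X} {k : ℕ} (hk : k < δ x) (p : T.Walk x y)
    (hy : ¬ (y ≠ c ∧ leg par δ y = leg par δ x ∧ δ x - k ≤ δ y)) : par^[k] x ∈ p.support := by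
  have hx : x ≠ c := ne_of_pos L (by omega)
  refine mem_support_of_exit p {v | v ≠ c ∧ leg par δ v = leg par δ x ∧ δ x - k ≤ δ v}
    ⟨hx, rfl, by omega⟩ hy ?_
  rintro a ⟨ha, hal, had⟩ b hb hadj
  have h1 := L.dep a ha
  rcases L.of_adj _ _ hadj with h | h
  · -- going up
    have h2 : δ a = δ x - k := by
      by_contra hne
      apply hb
      have h3 : b ≠ c := by
        rw [← h]
        exact ne_of_pos L (by omega)
      refine ⟨h3, ?_, by rw [← h]; omega⟩
      rw [← h, ← hal]
      exact leg_iter L (i := 1) (by rw [h] at h1; have := dep_pos L h3; omega)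
    have h4 := eq_iter L ha hx hal (by omega)
    rw [h4]
    congr 1
    omega
  · -- going down
    exfalso
    have hbc : b ≠ c := by
      rintro rfl
      rw [L.par_c] at h
      exact ha h.symm
    have h2 := L.dep b hbc
    apply hb
    refine ⟨hbc, ?_, by rw [h] at h2; omega⟩
    rw [← hal, ← h]
    exact (leg_iter L (i := 1) (by rw [h] at h2; have := dep_pos L ha; omega)).symm

/-- The leg and the depth determine the point. -/
theorem eq_of_leg {u v : X} (hu : u ≠ c) (hv : v ≠ c) (hl : leg par δ u = leg par δ v)
    (hd : δ u = δ v) : u = v := by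
  have := eq_iter L hu hv hl hd.le
  rw [hd, Nat.sub_self] at this
  exact this

end Legs

end Q45.RayTree.B
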