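import Pool.Agent.Q45.RayTree.Bwd

set_option autoImplicit false
set_option linter.unusedSectionVars false

/-! # A compact ultrametric space generated by a labelled starlike rayless tree: the metric part -/

namespace Q45.RayTree.B

open SimpleGraph Set Filter Topology Q45.RayTree

universe u

variable {X : Type u} [MetricSpace X] [IsUltrametricDist X]
variable {T : SimpleGraph X} {c : X} {par : X → X} {δ : X → ℕ} {l : X → ℝ}

/-- the labelled tree -/
structure Lab (T : SimpleGraph X) (c : X) (par : X → X) (δ : X → ℕ) (l : X → ℝ) : Prop where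
  leg : Leg T c par δ
  gen : Generates T l
  nonneg : ∀ v, 0 ≤ l v
  deg : ∀ v, v ≠ c → (T.neighborSet v).encard ≤ 2

variable (A : Lab T c par δ l)

include A

theorem gd {x : X} {k : ℕ} (h1 : 1 ≤ k) (h2 : k ≤ δ x) :
    IsGreatest ((fun i => l (par^[i] x)) '' Iic k) (Dist.dist x (par^[k] x)) := by
  obtain ⟨q, hq, hs⟩ := path_iter A.leg k x _ h2 rfl
  have hne : x ≠ par^[k] x := by
    intro h
    have := congrArg δ h
    rw [dep_iter A.leg h2] at this
    omega
  have h3 := A.gen _ _ hne q hq
  have h4 : l '' {w | w ∈ q.support} = (fun i => l (par^[i] x)) '' Iic k := by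
    ext y
    constructor
    · rintro ⟨w, hw, rfl⟩
      obtain ⟨i, hi, rfl⟩ := (hs w).mp hw
      exact ⟨i, hi, rfl⟩
    · rintro ⟨i, hi, rfl⟩
      exact ⟨par^[i] x, (hs _).mpr ⟨i, hi, rfl⟩, rfl⟩
  rwa [h4] at h3

theorem t_gd {x : X} (hx : x ≠ c) :
    IsGreatest ((fun i => l (par^[i] x)) '' Iic (δ x)) (Dist.dist x c) := by
  have h := gd A (dep_pos A.leg hx) (le_refl (δ x))
  rwa [iter_dep A.leg x] at h

theorem l_le_t {x : X} (hx : x ≠ c) {i : ℕ} (hi : i ≤ δ x) : l (par^[i] x) ≤ Dist.dist x c :=
  (t_gd A hx).2 ⟨i, hi, rfl⟩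

theorem t_iter_le {x : X} {i : ℕ} (hi : i ≤ δ x) : Dist.dist (par^[i] x) c ≤ Dist.dist x c := by
  by_cases h : par^[i] x = c
  · rw [h, _root_.dist_self]; exact dist_nonneg
  · have hx : x ≠ c := by
      rintro rfl
      rw [A.leg.dep_c] at hi
      have : i = 0 := by omega
      rw [this] at h
      exact h rfl
    obtain ⟨j, hj, hj'⟩ := (t_gd A h).1
    rw [← hj']
    simp only
    rw [← Function.iterate_add_apply]
    refine l_le_t A hx ?_
    rw [mem_Iic, dep_iter A.leg hi] at hj
    omega

/-- Points other than the centre are isolated. -/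
theorem isolated {z : X} (hz : z ≠ c) : ∃ ε : ℝ, 0 < ε ∧ ∀ y, y ≠ z → ε ≤ Dist.dist z y := by
  have hfin : (T.neighborSet z).Finite := by
    rw [← Set.encard_lt_top_iff]
    exact lt_of_le_of_lt (A.deg z hz) (by decide)
  obtain ⟨w, hw, hmin⟩ := Set.exists_min_image _ (fun w => Dist.dist z w) hfin
    ⟨par z, A.leg.adj z hz⟩
  refine ⟨Dist.dist z w, dist_pos.mpr (T.ne_of_adj hw), ?_⟩
  intro y hy
  classical
  obtain ⟨q⟩ := A.leg.conn z y
  have hp := q.bypass_isPath
  set p := q.bypass with hpdef
  have hnil : ¬ p.Nil := fun h => hy h.eq.symm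
  have hadj : T.Adj z p.snd := p.adj_snd hnil
  have h1 := A.gen z y hy.symm p hp
  have h2 := A.gen z p.snd (T.ne_of_adj hadj) (Walk.cons hadj Walk.nil) (by
    rw [Walk.cons_isPath_iff]
    refine ⟨Walk.IsPath.nil, ?_⟩
    rw [Walk.support_nil, List.mem_singleton]
    exact T.ne_of_adj hadj)
  refine (hmin _ hadj).trans ?_
  obtain ⟨v, hv, hv'⟩ := h2.1
  rw [← hv']
  apply h1.2
  refine ⟨v, ?_, rfl⟩
  rw [mem_ofPred_eq, Walk.support_cons, Walk.support_nil, List.mem_cons, List.mem_singleton] at hv
  rcases hv with rfl | rfl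
  · exact p.start_mem_support
  · exact p.getVert_mem_support 1

theorem finite_far [CompactSpace X] {ε : ℝ} (hε : 0 < ε) : {y : X | ε ≤ Dist.dist y c}.Finite := by
  have hclosed : IsClosed {y : X | ε ≤ Dist.dist y c} :=
    isClosed_le continuous_const (continuous_id.dist continuous_const)
  refine hclosed.isCompact.finite ?_
  rw [isDiscrete_iff_forall_mem_exists_isOpen]
  intro z hz
  have hzc : z ≠ c := by
    rintro rfl
    rw [mem_ofPred_eq, _root_.dist_self] at hz
    linarith
  obtain ⟨η, hη, h⟩ := isolated A hzc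
  refine ⟨Metric.ball z η, Metric.isOpen_ball, ?_⟩
  ext y
  rw [mem_inter_iff, mem_singleton_iff, Metric.mem_ball]
  constructor
  · rintro ⟨h1, _⟩
    by_contra hne
    have := h y hne
    rw [_root_.dist_comm] at this
    linarith
  · rintro rfl
    exact ⟨by rw [_root_.dist_self]; exact hη, hz⟩

theorem exists_near [CompactSpace X] [Infinite X] {ε : ℝ} (hε : 0 < ε) :
    ∃ y, y ≠ c ∧ Dist.dist y c < ε := by
  have h1 : ({y : X | ε ≤ Dist.dist y c} ∪ {c}).Finite := (finite_far A hε).union (finite_singleton c)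
  obtain ⟨y, hy⟩ := h1.exists_notMem
  rw [mem_union, not_or, mem_singleton_iff, mem_ofPred_eq, not_le] at hy
  exact ⟨y, hy.2, hy.1⟩

theorem l_c [CompactSpace X] [Infinite X] : l c = 0 := by
  refine le_antisymm ?_ (A.nonneg c)
  refine le_of_forall_pos_lt_add ?_
  intro ε hε
  obtain ⟨y, hy, hy'⟩ := exists_near A hε
  have h := l_le_t A hy (le_refl (δ y))
  rw [iter_dep A.leg y] at h
  linarith

theorem block_end [CompactSpace X] [Infinite X] {x : X} (hx : x ≠ c) :
    ∃ i, i < δ x ∧ l (par^[i] x) = Dist.dist x c ∧ Dist.dist (par^[i] x) c = Dist.dist x c := by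
  obtain ⟨i, hi, hi'⟩ := (t_gd A hx).1
  simp only at hi'
  rw [mem_Iic] at hi
  have hpos : 0 < Dist.dist x c := dist_pos.mpr hx
  have hne : i ≠ δ x := by
    rintro rfl
    rw [iter_dep A.leg x, l_c A] at hi'
    linarith
  have hi2 : i < δ x := lt_of_le_of_ne hi hne
  refine ⟨i, hi2, hi', le_antisymm (t_iter_le A hi) ?_⟩
  rw [← hi']
  exact l_le_t A (iter_ne A.leg hi2) (i := 0) (Nat.zero_le _)

/-! ### the order -/

omit A in
/-- `x` comes before `y` in the ray -/
def r (c : X) (par : X → X) (δ : X → ℕ) (x y : X) : Prop :=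
  Dist.dist y c < Dist.dist x c ∨ (Dist.dist x c = Dist.dist y c ∧
    (WellOrderingRel (leg par δ x) (leg par δ y) ∨ (leg par δ x = leg par δ y ∧ δ y < δ x)))

omit A in
theorem r_irrefl (x : X) : ¬ r c par δ x x := by
  rintro (h | ⟨_, h | ⟨_, h⟩⟩)
  · exact lt_irrefl _ h
  · exact irrefl_of WellOrderingRel _ h
  · exact lt_irrefl _ h

omit A in
theorem r_trans {x y z : X} (h1 : r c par δ x y) (h2 : r c par δ y z) : r c par δ x z := by
  rcases h1 with h1 | ⟨h1, h1'⟩
  · rcases h2 with h2 | ⟨h2, _⟩
    · exact Or.inl (h2.trans h1)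
    · exact Or.inl (by rw [← h2]; exact h1)
  · rcases h2 with h2 | ⟨h2, h2'⟩
    · exact Or.inl (by rw [h1]; exact h2)
    · refine Or.inr ⟨h1.trans h2, ?_⟩
      rcases h1' with h3 | ⟨h3, h4⟩
      · rcases h2' with h5 | ⟨h5, _⟩
        · exact Or.inl (trans_of WellOrderingRel h3 h5)
        · exact Or.inl (by rw [← h5]; exact h3)
      · rcases h2' with h5 | ⟨h5, h6⟩
        · exact Or.inl (by rw [h3]; exact h5)
        · exact Or.inr ⟨h3.trans h5, h6.trans h4⟩

theorem r_total {x y : X} (hx : x ≠ c) (hy : y ≠ c) : r c par δ x y ∨ x = y ∨ r c par δ y x := by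
  rcases lt_trichotomy (Dist.dist x c) (Dist.dist y c) with h | h | h
  · exact Or.inr (Or.inr (Or.inl h))
  · rcases trichotomous_of WellOrderingRel (leg par δ x) (leg par δ y) with h1 | h1 | h1
    · exact Or.inl (Or.inr ⟨h, Or.inl h1⟩)
    · rcases lt_trichotomy (δ x) (δ y) with h2 | h2 | h2
      · exact Or.inr (Or.inr (Or.inr ⟨h.symm, Or.inr ⟨h1.symm, h2⟩⟩))
      · exact Or.inr (Or.inl (eq_of_leg A.leg hx hy h1 h2))
      · exact Or.inl (Or.inr ⟨h, Or.inr ⟨h1, h2⟩⟩)
    · exact Or.inr (Or.inr (Or.inr ⟨h.symm, Or.inl h1⟩))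
  · exact Or.inl (Or.inl h)

/-- The distance of two points is the largest label of the points between them in the order. -/
theorem dist_greatest [CompactSpace X] [Infinite X] {x y : X} (hx : x ≠ c) (hy : y ≠ c)
    (hxy : r c par δ x y) :
    IsGreatest (l '' {z | z ≠ c ∧ (z = x ∨ r c par δ x z) ∧ (z = y ∨ r c par δ z y)})
      (Dist.dist x y) := by
  by_cases hcase : Dist.dist x c = Dist.dist y c ∧ leg par δ x = leg par δ y
  · -- one block of one leg
    obtain ⟨ht, hleg⟩ := hcase
    have hd : δ y < δ x := by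
      rcases hxy with h | ⟨_, h | ⟨_, h⟩⟩
      · rw [ht] at h; exact absurd h (lt_irrefl _)
      · rw [hleg] at h; exact absurd h (irrefl_of WellOrderingRel _)
      · exact h
    have hy' := dep_pos A.leg hy
    have hyx : y = par^[δ x - δ y] x := eq_iter A.leg hy hx hleg.symm hd.le
    have h1 := gd A (x := x) (k := δ x - δ y) (by omega) (by omega)
    rw [← hyx] at h1
    have hbetween : ∀ i, i ≤ δ x - δ y → par^[i] x ≠ c ∧ (par^[i] x = x ∨ r c par δ x (par^[i] x)) ∧
        (par^[i] x = y ∨ r c par δ (par^[i] x) y) := by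
      intro i hi
      have hlt : i < δ x := by omega
      have h2 : Dist.dist (par^[i] x) c ≤ Dist.dist x c := t_iter_le A hlt.le
      have h3 : Dist.dist y c ≤ Dist.dist (par^[i] x) c := by
        have h4 : y = par^[δ x - δ y - i] (par^[i] x) := by
          rw [← Function.iterate_add_apply]
          conv_lhs => rw [hyx]
          congr 1
          omega
        conv_lhs => rw [h4]
        apply t_iter_le A
        rw [dep_iter A.leg hlt.le]
        omega
      have h5 : Dist.dist (par^[i] x) c = Dist.dist x c := le_antisymm h2 (by rw [ht]; exact h3)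
      have h6 := leg_iter A.leg hlt
      have h7 := dep_iter A.leg hlt.le
      refine ⟨iter_ne A.leg hlt, ?_, ?_⟩
      · rcases Nat.eq_zero_or_pos i with h0 | h0
        · left; rw [h0]; rfl
        · right; right
          exact ⟨h5.symm, Or.inr ⟨h6.symm, by omega⟩⟩
      · rcases eq_or_lt_of_le hi with h0 | h0
        · left; rw [h0]; exact hyx.symm
        · right; right
          exact ⟨h5.trans ht, Or.inr ⟨h6.trans hleg, by omega⟩⟩
    constructor
    · obtain ⟨i, hi, hi'⟩ := h1.1
      exact ⟨par^[i] x, hbetween i hi, hi'⟩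
    · rintro v ⟨z, ⟨hz, hz1, hz2⟩, rfl⟩
      have h2 : Dist.dist z c ≤ Dist.dist x c := by
        rcases hz1 with rfl | h | ⟨h, _⟩
        · exact le_rfl
        · exact h.le
        · exact h.ge
      have h3 : Dist.dist y c ≤ Dist.dist z c := by
        rcases hz2 with rfl | h | ⟨h, _⟩
        · exact le_rfl
        · exact h.le
        · exact h.ge
      have h4 : Dist.dist z c = Dist.dist x c := le_antisymm h2 (by rw [ht]; exact h3)
      have h5 : leg par δ z = leg par δ x ∧ δ z ≤ δ x := by
        rcases hz1 with rfl | h | ⟨_, h⟩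
        · exact ⟨rfl, le_rfl⟩
        · rw [h4] at h; exact absurd h (lt_irrefl _)
        · rcases hz2 with rfl | h' | ⟨_, h'⟩
          · exact ⟨hleg.symm, hd.le⟩
          · rw [h4, ht] at h'; exact absurd h' (lt_irrefl _)
          · rcases h with h | ⟨h, h8⟩
            · rcases h' with h' | ⟨h', _⟩
              · have := trans_of WellOrderingRel h h'
                rw [hleg] at this
                exact absurd this (irrefl_of WellOrderingRel _)
              · rw [h', ← hleg] at h
                exact absurd h (irrefl_of WellOrderingRel _)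
            · exact ⟨h.symm, h8.le⟩
      have h6 : δ y ≤ δ z := by
        rcases hz2 with rfl | h | ⟨_, h | ⟨_, h⟩⟩
        · exact le_rfl
        · rw [h4, ht] at h; exact absurd h (lt_irrefl _)
        · rw [h5.1, hleg] at h; exact absurd h (irrefl_of WellOrderingRel _)
        · exact h.le
      have h7 := eq_iter A.leg hz hx h5.1 h5.2
      have h8 : δ x - δ z ≤ δ x - δ y := by omega
      exact h1.2 ⟨δ x - δ z, h8, by simp only; rw [← h7]⟩
  · -- different blocks
    obtain ⟨i, hi, hi1, hi2⟩ := block_end A hx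
    have h6 := leg_iter A.leg hi
    have h7 := dep_iter A.leg hi.le
    have hle : Dist.dist y c ≤ Dist.dist x c := by
      rcases hxy with h | ⟨h, _⟩
      · exact h.le
      · exact h.ge
    have hupper : Dist.dist x y ≤ Dist.dist x c := by
      refine (dist_triangle_max x c y).trans (max_le le_rfl ?_)
      rw [_root_.dist_comm c y]
      exact hle
    have hlower : Dist.dist x c ≤ Dist.dist x y := by
      by_cases ht : Dist.dist x c = Dist.dist y c
      · have hlegne : leg par δ y ≠ leg par δ x := fun h => hcase ⟨ht, h.symm⟩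
        classical
        obtain ⟨q⟩ := A.leg.conn x y
        have hne : x ≠ y := by
          rintro rfl
          exact r_irrefl _ hxy
        have h8 := A.gen x y hne q.bypass q.bypass_isPath
        rw [← hi1]
        exact h8.2 ⟨_, anc_mem A.leg hi q.bypass (fun h => hlegne h.2.1), rfl⟩
      · have hlt : Dist.dist y c < Dist.dist x c := lt_of_le_of_ne hle (Ne.symm ht)
        have h8 := dist_triangle_max x y c
        rcases le_max_iff.mp h8 with h9 | h9
        · exact h9
        · linarith
    have heq : Dist.dist x y = Dist.dist x c := le_antisymm hupper hlower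
    rw [heq]
    constructor
    · refine ⟨par^[i] x, ⟨iter_ne A.leg hi, ?_, ?_⟩, hi1⟩
      · rcases Nat.eq_zero_or_pos i with h0 | h0
        · left; rw [h0]; rfl
        · right; right
          exact ⟨hi2.symm, Or.inr ⟨h6.symm, by omega⟩⟩
      · right
        rcases hxy with h | ⟨h, h' | ⟨h', _⟩⟩
        · left; rw [hi2]; exact h
        · right
          exact ⟨hi2.trans h, Or.inl (by rw [h6]; exact h')⟩
        · exact absurd ⟨h, h'⟩ hcase
    · rintro v ⟨z, ⟨hz, hz1, _⟩, rfl⟩
      refine (l_le_t A hz (i := 0) (Nat.zero_le _)).trans ?_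
      rcases hz1 with rfl | h | ⟨h, _⟩
      · exact le_rfl
      · exact h.le
      · exact h.ge

end Q45.RayTree.B
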