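import Pool.Agent.Q45.RayTree.Basic

set_option autoImplicit false
set_option linter.unusedSectionVars false

/-! # A totally bounded labelled ray and its limit point form a labelled starlike rayless tree -/

namespace Q45.RayTree

open SimpleGraph Set Filter Topology

universe u

variable {X : Type u} [MetricSpace X] [IsUltrametricDist X]

theorem finite_large {x : ℕ → X} {l : ℕ → ℝ}
    (hd : ∀ m n, m < n → IsGreatest (l '' Icc m n) (Dist.dist (x m) (x n)))
    (htb : TotallyBounded (range x)) {ε : ℝ} (hε : 0 < ε) : {n | ε ≤ l n}.Finite := by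
  by_contra hinf
  obtain ⟨t, ht, hcov⟩ := Metric.totallyBounded_iff.mp htb ε hε
  have h1 : ∀ n, ∃ y ∈ t, Dist.dist (x n) y < ε := by
    intro n
    have := hcov (mem_range_self n)
    simp only [mem_iUnion, Metric.mem_ball] at this
    obtain ⟨y, hy, h⟩ := this
    exact ⟨y, hy, h⟩
  choose f hf hf' using h1
  obtain ⟨m, hm, n, hn, hne, heq⟩ := Set.Infinite.exists_ne_map_eq_of_mapsTo
    (s := {n | ε ≤ l n}) (t := t) (f := f) hinf (fun n _ => hf n) ht
  have key : ∀ m n, m < n → ε ≤ l m → f m = f n → False := by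
    intro m n hmn hm heq
    have h2 : Dist.dist (x m) (x n) < ε := by
      refine lt_of_le_of_lt (dist_triangle_max (x m) (f m) (x n)) (max_lt (hf' m) ?_)
      rw [heq, _root_.dist_comm]
      exact hf' n
    have h3 : l m ≤ Dist.dist (x m) (x n) := (hd m n hmn).2 ⟨m, ⟨le_rfl, hmn.le⟩, rfl⟩
    linarith
  rcases lt_or_gt_of_ne hne with h | h
  · exact key m n h hm heq
  · exact key n m h hn heq.symm

/-- the label at `n` is larger than all the later ones -/
def Rec (l : ℕ → ℝ) (n : ℕ) : Prop := ∀ k, n < k → l k < l n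

section Spider

variable {x : ℕ → X} {l : ℕ → ℝ}

structure Data (x : ℕ → X) (l : ℕ → ℝ) (c : X) : Prop where
  nonneg : ∀ n, 0 ≤ l n
  inj : Function.Injective x
  hd : ∀ m n, m < n → IsGreatest (l '' Icc m n) (Dist.dist (x m) (x n))
  fin : ∀ ε : ℝ, 0 < ε → {n | ε ≤ l n}.Finite
  hc : Tendsto x atTop (𝓝 c)
  hcx : ∀ n, x n ≠ c
  all : ∀ y, y = c ∨ ∃ n, y = x n

variable {c : X} (D : Data x l c)

include D

theorem exists_rec (n : ℕ) : ∃ r, n ≤ r ∧ (∀ k, n ≤ k → l k ≤ l r) ∧ Rec l r := by
  classical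
  obtain ⟨k0, hk0, hk0'⟩ := (D.hd n (n + 1) (Nat.lt_succ_self n)).1
  have hpos : 0 < l k0 := by
    rw [hk0']
    exact dist_pos.mpr (fun h => absurd (D.inj h) (by omega))
  have hF : {k | n ≤ k ∧ l k0 ≤ l k}.Finite :=
    (D.fin _ hpos).subset (fun k hk => hk.2)
  obtain ⟨k1, hk1, hmax⟩ := Set.exists_max_image _ l hF ⟨k0, hk0.1, le_rfl⟩
  have hG : {k | (n ≤ k ∧ l k0 ≤ l k) ∧ l k = l k1}.Finite := hF.subset (fun k hk => hk.1)
  obtain ⟨r, hr, hmax'⟩ := Set.exists_max_image _ (fun k => k) hG ⟨k1, hk1, rfl⟩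
  have h1 : ∀ k, n ≤ k → l k ≤ l r := by
    intro k hk
    rw [hr.2]
    by_cases h : l k0 ≤ l k
    · exact hmax k ⟨hk, h⟩
    · exact (not_le.mp h).le.trans hk1.2
  refine ⟨r, hr.1.1, h1, ?_⟩
  intro k hk
  refine lt_of_le_of_ne (h1 k (hr.1.1.trans hk.le)) (fun h => ?_)
  have := hmax' k ⟨⟨hr.1.1.trans hk.le, by rw [h]; exact hr.1.2⟩, h.trans hr.2⟩
  omega

theorem exists_rec' (n : ℕ) : ∃ r, n ≤ r ∧ Rec l r := by
  obtain ⟨r, h1, _, h2⟩ := exists_rec D n
  exact ⟨r, h1, h2⟩

open Classical in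
/-- the next record -/
noncomputable def rr (D : Data x l c) (n : ℕ) : ℕ := Nat.find (exists_rec' D n)

theorem le_rr (n : ℕ) : n ≤ rr D n := by
  classical
  exact (Nat.find_spec (exists_rec' D n)).1

theorem rec_rr (n : ℕ) : Rec l (rr D n) := by
  classical
  exact (Nat.find_spec (exists_rec' D n)).2

theorem rr_min {n k : ℕ} (h1 : n ≤ k) (h2 : Rec l k) : rr D n ≤ k := by
  classical
  exact Nat.find_min' (exists_rec' D n) ⟨h1, h2⟩

theorem le_l_rr {n k : ℕ} (h : n ≤ k) : l k ≤ l (rr D n) := by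
  obtain ⟨r, h1, h2, h3⟩ := exists_rec D n
  have h4 : rr D n ≤ r := rr_min D h1 h3
  have h5 : rr D n = r := by
    by_contra hne
    have h6 := rec_rr D n r (lt_of_le_of_ne h4 hne)
    have h7 := h2 (rr D n) (le_rr D n)
    linarith
  rw [h5]
  exact h2 k h

theorem rr_of_rec {n : ℕ} (h : Rec l n) : rr D n = n :=
  le_antisymm (rr_min D le_rfl h) (le_rr D n)

theorem rr_succ {n : ℕ} (h : ¬ Rec l n) : rr D (n + 1) = rr D n := by
  have h1 : n ≠ rr D n := fun he => h (he ▸ rec_rr D n)
  have h2 := le_rr D n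
  apply le_antisymm
  · exact rr_min D (by omega) (rec_rr D n)
  · exact rr_min D (by have := le_rr D (n + 1); omega) (rec_rr D (n + 1))

theorem rr_eq {m k : ℕ} (h1 : m ≤ k) (h2 : k ≤ rr D m) : rr D k = rr D m := by
  apply le_antisymm
  · exact rr_min D h2 (rec_rr D m)
  · exact rr_min D (h1.trans (le_rr D k)) (rec_rr D k)

theorem dist_c (n : ℕ) : Dist.dist (x n) c = l (rr D n) := by
  have h1 : Tendsto (fun m => Dist.dist (x n) (x m)) atTop (𝓝 (Dist.dist (x n) c)) :=
    tendsto_const_nhds.dist D.hc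
  have h2 : Tendsto (fun m => Dist.dist (x n) (x m)) atTop (𝓝 (l (rr D n))) := by
    refine tendsto_const_nhds.congr' ?_
    filter_upwards [eventually_gt_atTop (rr D n)] with m hm
    have hnm : n < m := lt_of_le_of_lt (le_rr D n) hm
    have h3 := D.hd n m hnm
    apply le_antisymm
    · exact h3.2 ⟨rr D n, ⟨le_rr D n, hm.le⟩, rfl⟩
    · obtain ⟨k, hk, hk'⟩ := h3.1
      rw [← hk']
      exact le_l_rr D hk.1
  exact tendsto_nhds_unique h1 h2

omit D [IsUltrametricDist X] in
/-- `u` has the parent `v` -/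
def Par (x : ℕ → X) (l : ℕ → ℝ) (c : X) (u v : X) : Prop :=
  (∃ n, ¬ Rec l n ∧ u = x n ∧ v = x (n + 1)) ∨ (∃ n, Rec l n ∧ u = x n ∧ v = c)

/-- the tree -/
def T (D : Data x l c) : SimpleGraph X where
  Adj u v := Par x l c u v ∨ Par x l c v u
  symm := ⟨fun _ _ h => h.symm⟩
  loopless := ⟨by
    intro u h
    have : Par x l c u u := (or_self_iff).mp h
    rcases this with ⟨n, _, h1, h2⟩ | ⟨n, _, h1, h2⟩
    · have := D.inj (h1.symm.trans h2)
      omega
    · exact D.hcx n (h1.symm.trans h2)⟩

theorem T_succ {n : ℕ} (h : ¬ Rec l n) : (T D).Adj (x n) (x (n + 1)) :=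
  Or.inl (Or.inl ⟨n, h, rfl, rfl⟩)

theorem T_c {n : ℕ} (h : Rec l n) : (T D).Adj (x n) c := Or.inl (Or.inr ⟨n, h, rfl, rfl⟩)

open Classical in
/-- the index of a point -/
noncomputable def idx (D : Data x l c) (v : X) : ℕ :=
  if h : ∃ n, v = x n then h.choose else 0

theorem idx_x (n : ℕ) : idx D (x n) = n := by
  classical
  have h : ∃ k, x n = x k := ⟨n, rfl⟩
  unfold idx
  rw [dif_pos h]
  exact (D.inj h.choose_spec).symm

open Classical in
/-- the height -/
noncomputable def ht (D : Data x l c) (v : X) : ℕ :=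
  if v = c then 0 else rr D (idx D v) - idx D v + 1

open Classical in
/-- the parent -/
noncomputable def par (D : Data x l c) (v : X) : X :=
  if v = c then c else if Rec l (idx D v) then c else x (idx D v + 1)

theorem ht_c : ht D c = 0 := by simp [ht]

theorem ht_x (n : ℕ) : ht D (x n) = rr D n - n + 1 := by
  unfold ht
  rw [if_neg (D.hcx n), idx_x]

theorem Par.spec {u v : X} (h : Par x l c u v) : par D u = v ∧ ht D v < ht D u := by
  rcases h with ⟨n, h1, rfl, rfl⟩ | ⟨n, h1, rfl, rfl⟩
  · constructor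
    · unfold par
      rw [if_neg (D.hcx n), idx_x, if_neg h1]
    · rw [ht_x, ht_x, rr_succ D h1]
      have h2 : n ≠ rr D n := fun he => h1 (he ▸ rec_rr D n)
      have h3 := le_rr D n
      omega
  · constructor
    · unfold par
      rw [if_neg (D.hcx n), idx_x, if_pos h1]
    · rw [ht_c, ht_x]
      omega

theorem T_acyclic : (T D).IsAcyclic := by
  refine isAcyclic_of_parent _ (ht D) (par D) ?_
  intro u v huv
  rcases huv with h | h
  · exact Or.inl (Par.spec D h)
  · exact Or.inr (Par.spec D h)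

theorem walk_c (j : ℕ) : ∀ n, rr D n = n + j → ∃ q : (T D).Walk (x n) c,
    ∀ w ∈ q.support, w = c ∨ ∃ k, n ≤ k ∧ k ≤ rr D n ∧ w = x k := by
  induction j with
  | zero =>
    intro n hn
    have hrec : Rec l n := by
      have := rec_rr D n
      rwa [hn, Nat.add_zero] at this
    refine ⟨Walk.cons (T_c D hrec) Walk.nil, ?_⟩
    intro w hw
    rw [Walk.support_cons, Walk.support_nil, List.mem_cons, List.mem_singleton] at hw
    rcases hw with hw | hw
    · exact Or.inr ⟨n, le_rfl, le_rr D n, hw⟩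
    · exact Or.inl hw
  | succ j ih =>
    intro n hn
    have hrec : ¬ Rec l n := by
      intro h
      have := rr_of_rec D h
      omega
    obtain ⟨q, hq⟩ := ih (n + 1) (by rw [rr_succ D hrec, hn]; omega)
    refine ⟨Walk.cons (T_succ D hrec) q, ?_⟩
    intro w hw
    rw [Walk.support_cons, List.mem_cons] at hw
    rcases hw with hw | hw
    · exact Or.inr ⟨n, le_rfl, le_rr D n, hw⟩
    · rcases hq w hw with h | ⟨k, h1, h2, h3⟩
      · exact Or.inl h
      · exact Or.inr ⟨k, by omega, by rwa [rr_succ D hrec] at h2, h3⟩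

theorem walk_c' (n : ℕ) : ∃ q : (T D).Walk (x n) c,
    ∀ w ∈ q.support, w = c ∨ ∃ k, n ≤ k ∧ k ≤ rr D n ∧ w = x k :=
  walk_c D (rr D n - n) n (by have := le_rr D n; omega)

theorem walk_block (m j : ℕ) (h : m + j ≤ rr D m) : ∃ q : (T D).Walk (x m) (x (m + j)),
    ∀ w ∈ q.support, ∃ k, m ≤ k ∧ k ≤ m + j ∧ w = x k := by
  induction j with
  | zero =>
    refine ⟨Walk.nil, ?_⟩
    intro w hw
    rw [Walk.support_nil, List.mem_singleton] at hw
    exact ⟨m, le_rfl, by omega, hw⟩
  | succ j ih =>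
    obtain ⟨q, hq⟩ := ih (by omega)
    have hrec : ¬ Rec l (m + j) := by
      intro h'
      have := rr_min D (by omega : m ≤ m + j) h'
      omega
    refine ⟨q.concat (T_succ D hrec), ?_⟩
    intro w hw
    rw [Walk.support_concat, List.mem_append, List.mem_singleton] at hw
    rcases hw with hw | hw
    · obtain ⟨k, h1, h2, h3⟩ := hq w hw
      exact ⟨k, h1, by omega, h3⟩
    · exact ⟨m + (j + 1), by omega, le_rfl, hw⟩

/-- the descendants of `x k` -/
theorem exit {m k : ℕ} (hmk : m ≤ k) (hk : k ≤ rr D m) {v : X} (p : (T D).Walk (x m) v)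
    (hv : ∀ j, j ≤ k → rr D j = rr D m → v ≠ x j) : x k ∈ p.support := by
  have hkm : rr D k = rr D m := rr_eq D hmk hk
  refine mem_support_of_exit p {y | ∃ j, j ≤ k ∧ rr D j = rr D m ∧ y = x j} ⟨m, hmk, rfl, rfl⟩ ?_ ?_
  · rintro ⟨j, h1, h2, h3⟩
    exact hv j h1 h2 h3
  · rintro a ⟨j, h1, h2, rfl⟩ b hb hadj
    rcases hadj with (⟨n, h3, h4, h5⟩ | ⟨n, h3, h4, h5⟩) | (⟨n, h3, h4, h5⟩ | ⟨n, h3, h4, h5⟩)
    · have := D.inj h4
      subst this
      have h6 : ¬ (j + 1 ≤ k) := fun h => hb ⟨j + 1, h, by rw [rr_succ D h3, h2], h5⟩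
      have : j = k := by omega
      rw [this]
    · have := D.inj h4
      subst this
      have h6 := rr_of_rec D h3
      have h7 := le_rr D k
      have : j = k := by omega
      rw [this]
    · exfalso
      have := D.inj h5
      exact hb ⟨n, by omega, by rw [← rr_succ D h3, ← this, h2], h4⟩
    · exact absurd h5 (D.hcx j)

theorem T_isTree : (T D).IsTree := by
  refine ⟨?_, T_acyclic D⟩
  rw [SimpleGraph.connected_iff]
  refine ⟨?_, ⟨c⟩⟩
  have h : ∀ y, (T D).Reachable y c := by
    intro y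
    rcases D.all y with rfl | ⟨n, rfl⟩
    · exact Reachable.refl _
    · obtain ⟨q, _⟩ := walk_c' D n
      exact ⟨q⟩
  intro u v
  exact (h u).trans (h v).symm

open Classical in
/-- the labels -/
noncomputable def lab (D : Data x l c) (v : X) : ℝ := if v = c then 0 else l (idx D v)

theorem lab_c : lab D c = 0 := by simp [lab]

theorem lab_x (n : ℕ) : lab D (x n) = l n := by
  unfold lab
  rw [if_neg (D.hcx n), idx_x]

theorem lab_nonneg (v : X) : 0 ≤ lab D v := by
  unfold lab
  split_ifs
  · exact le_rfl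
  · exact D.nonneg _

theorem gen_far {m : ℕ} {v : X} (p : (T D).Walk (x m) v) (hp : p.IsPath)
    (hv : v = c ∨ ∃ n, rr D m < n ∧ v = x n) :
    IsGreatest (lab D '' {w | w ∈ p.support}) (Dist.dist (x m) v) := by
  have hdist : Dist.dist (x m) v = l (rr D m) := by
    rcases hv with rfl | ⟨n, hn, rfl⟩
    · exact dist_c D m
    · have hmn : m < n := lt_of_le_of_lt (le_rr D m) hn
      have h3 := D.hd m n hmn
      apply le_antisymm
      · obtain ⟨k, hk, hk'⟩ := h3.1
        rw [← hk']
        exact le_l_rr D hk.1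
      · exact h3.2 ⟨rr D m, ⟨le_rr D m, hn.le⟩, rfl⟩
  rw [hdist]
  constructor
  · refine ⟨x (rr D m), ?_, lab_x D _⟩
    refine exit D (le_rr D m) le_rfl p ?_
    intro j hj hj' he
    rcases hv with rfl | ⟨n, hn, rfl⟩
    · exact D.hcx j he.symm
    · have := D.inj he
      omega
  · rintro y ⟨w, hw, rfl⟩
    obtain ⟨q, hq⟩ := walk_c' D m
    have hmain : ∀ w ∈ p.support, w = c ∨ ∃ k, m ≤ k ∧ w = x k := by
      rcases hv with rfl | ⟨n, hn, rfl⟩
      · intro w hw
        rcases hq w (path_support_subset (T_acyclic D) p hp q w hw) with h | ⟨k, h1, _, h3⟩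
        · exact Or.inl h
        · exact Or.inr ⟨k, h1, h3⟩
      · obtain ⟨q', hq'⟩ := walk_c' D n
        intro w hw
        have h1 := path_support_subset (T_acyclic D) p hp (q.append q'.reverse) w hw
        rw [Walk.mem_support_append_iff, Walk.support_reverse, List.mem_reverse] at h1
        rcases h1 with h1 | h1
        · rcases hq w h1 with h | ⟨k, h1, _, h3⟩
          · exact Or.inl h
          · exact Or.inr ⟨k, h1, h3⟩
        · rcases hq' w h1 with h | ⟨k, h1, _, h3⟩
          · exact Or.inl h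
          · exact Or.inr ⟨k, by have := le_rr D m; omega, h3⟩
    rcases hmain w hw with rfl | ⟨k, h1, rfl⟩
    · rw [lab_c]; exact D.nonneg _
    · rw [lab_x]; exact le_l_rr D h1

theorem gen_near {m n : ℕ} (hmn : m < n) (hn : n ≤ rr D m) (p : (T D).Walk (x m) (x n))
    (hp : p.IsPath) : IsGreatest (lab D '' {w | w ∈ p.support}) (Dist.dist (x m) (x n)) := by
  have h3 := D.hd m n hmn
  constructor
  · obtain ⟨k, hk, hk'⟩ := h3.1
    refine ⟨x k, ?_, by rw [lab_x]; exact hk'⟩
    rcases eq_or_lt_of_le hk.2 with h | h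
    · rw [h]; exact p.end_mem_support
    · refine exit D hk.1 (hk.2.trans hn) p ?_
      intro j hj _ he
      have := D.inj he
      omega
  · rintro y ⟨w, hw, rfl⟩
    obtain ⟨j, rfl⟩ : ∃ j, n = m + j := ⟨n - m, by omega⟩
    obtain ⟨q, hq⟩ := walk_block D m j hn
    obtain ⟨k, h1, h2, rfl⟩ := hq w (path_support_subset (T_acyclic D) p hp q w hw)
    rw [lab_x]
    exact h3.2 ⟨k, ⟨h1, h2⟩, rfl⟩

theorem gen_lt {m n : ℕ} (hmn : m < n) (p : (T D).Walk (x m) (x n))
    (hp : p.IsPath) : IsGreatest (lab D '' {w | w ∈ p.support}) (Dist.dist (x m) (x n)) := by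
  by_cases h : n ≤ rr D m
  · exact gen_near D hmn h p hp
  · exact gen_far D p hp (Or.inr ⟨n, by omega, rfl⟩)

theorem T_generates : Generates (T D) (lab D) := by
  intro u v huv p hp
  have hrev : IsGreatest (lab D '' {w | w ∈ p.reverse.support}) (Dist.dist v u) →
      IsGreatest (lab D '' {w | w ∈ p.support}) (Dist.dist u v) := by
    intro h
    have h1 : {w | w ∈ p.support} = {w | w ∈ p.reverse.support} := by
      ext w; simp
    rw [h1, _root_.dist_comm]
    exact h
  rcases D.all u with rfl | ⟨m, rfl⟩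
  · rcases D.all v with rfl | ⟨n, rfl⟩
    · exact absurd rfl huv
    · exact hrev (gen_far D p.reverse hp.reverse (Or.inl rfl))
  · rcases D.all v with rfl | ⟨n, rfl⟩
    · exact gen_far D p hp (Or.inl rfl)
    · rcases lt_trichotomy m n with h | h | h
      · exact gen_lt D h p hp
      · exact absurd (congrArg x h) huv
      · exact hrev (gen_lt D h p.reverse hp.reverse)

theorem T_starlike : Starlike (T D) := by
  refine ⟨c, ?_, ?_⟩
  · have hinf : ((T D).neighborSet c).Infinite := by
      have h1 : {n | Rec l n}.Infinite := by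
        rw [Set.infinite_iff_exists_gt]
        intro a
        obtain ⟨r, h1, h2⟩ := exists_rec' D (a + 1)
        exact ⟨r, h2, by omega⟩
      refine (h1.image (D.inj.injOn)).mono ?_
      rintro y ⟨n, hn, rfl⟩
      exact (T_c D hn).symm
    show 2 < ((T D).neighborSet c).encard
    rw [hinf.encard_eq]
    exact compareOfLessAndEq_eq_lt.mp rfl
  · intro y hy
    by_contra hne
    obtain ⟨n, rfl⟩ := (D.all y).resolve_left hne
    have hsub : (T D).neighborSet (x n) ⊆ {par D (x n), x (n - 1)} := by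
      intro b hb
      rw [mem_neighborSet] at hb
      rcases hb with h | h
      · exact Or.inl (Par.spec D h).1.symm
      · rcases h with ⟨k, _, h4, h5⟩ | ⟨k, _, h4, h5⟩
        · have := D.inj h5
          right
          rw [h4, this]
          rfl
        · exact absurd h5 (D.hcx n)
    have h1 := Set.encard_le_encard hsub
    have h2 : ({par D (x n), x (n - 1)} : Set X).encard ≤ 2 := by
      refine (Set.encard_insert_le _ _).trans ?_
      rw [Set.encard_singleton]
      exact le_of_eq (by norm_num)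
    exact absurd hy (not_lt.mpr (h1.trans h2))

theorem T_rayless : Rayless (T D) := by
  rintro ⟨f, hf, hadj⟩
  -- going down is persistent
  have hdown : ∀ n, Par x l c (f (n + 1)) (f n) → Par x l c (f (n + 2)) (f (n + 1)) := by
    intro n hn
    rcases hadj (n + 1) with h | h
    · exfalso
      have := (Par.spec D h).1.symm.trans (Par.spec D hn).1
      have := hf this
      omega
    · exact h
  by_cases hex : ∃ N, Par x l c (f (N + 1)) (f N)
  · obtain ⟨N, hN⟩ := hex
    have hall : ∀ j, Par x l c (f (N + j + 1)) (f (N + j)) := by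
      intro j
      induction j with
      | zero => exact hN
      | succ j ih => exact hdown _ ih
    have hne : ∀ j, f (N + 1 + j) ≠ c := by
      intro j he
      have h1 := hall (j)
      rw [show N + j + 1 = N + 1 + j by ring, he] at h1
      rcases h1 with ⟨n, _, h4, _⟩ | ⟨n, _, h4, _⟩
      · exact D.hcx n h4.symm
      · exact D.hcx n h4.symm
    have hidx : ∀ j, idx D (f (N + 1 + (j + 1))) + 1 = idx D (f (N + 1 + j)) := by
      intro j
      have h1 := hall (j + 1)
      rw [show N + (j + 1) + 1 = N + 1 + (j + 1) by ring,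
        show N + (j + 1) = N + 1 + j by ring] at h1
      rcases h1 with ⟨n, _, h4, h5⟩ | ⟨n, _, h4, h5⟩
      · rw [h4, h5, idx_x, idx_x]
      · exact absurd h5 (hne j)
    have hlin : ∀ j, idx D (f (N + 1 + j)) + j = idx D (f (N + 1)) := by
      intro j
      induction j with
      | zero => rfl
      | succ j ih =>
        have := hidx j
        omega
    have := hlin (idx D (f (N + 1)) + 1)
    omega
  · push Not at hex
    have hup : ∀ n, ht D (f (n + 1)) < ht D (f n) := by
      intro n
      rcases hadj n with h | h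
      · exact (Par.spec D h).2
      · exact absurd h (hex n)
    have hlin : ∀ j, ht D (f j) + j ≤ ht D (f 0) := by
      intro j
      induction j with
      | zero => simp
      | succ j ih =>
        have := hup j
        omega
    have := hlin (ht D (f 0) + 1)
    omega

end Spider

end Q45.RayTree
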