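import Pool.Agent.Q45.RayTree.Fwd
import Pool.Agent.Q45.RayTree.Bwd2

set_option autoImplicit false
set_option linter.unusedSectionVars false

/-! # Completions of ray-generated ultrametric spaces: the equivalence -/

namespace Q45.RayTree

open SimpleGraph Set Filter Topology

universe u

theorem exists_enum {Y : Type u} [Infinite Y] (r : Y → Y → Prop) (hirr : ∀ x, ¬ r x x)
    (htr : ∀ x y z, r x y → r y z → r x z) (htot : ∀ x y, r x y ∨ x = y ∨ r y x)
    (hfin : ∀ x, {z | r z x}.Finite) :
    ∃ e : ℕ → Y, Function.Bijective e ∧ ∀ m n, r (e m) (e n) ↔ m < n := by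
  classical
  set ρ : Y → ℕ := fun y => {z | r z y}.ncard with hρ
  have hmono : ∀ x y, r x y → ρ x < ρ y := by
    intro x y hxy
    refine Set.ncard_lt_ncard ?_ (hfin y)
    refine ⟨fun z hz => htr z x y hz hxy, fun h => hirr x (h hxy)⟩
  have hiff : ∀ x y, r x y ↔ ρ x < ρ y := by
    intro x y
    refine ⟨hmono x y, fun h => ?_⟩
    rcases htot x y with h1 | h1 | h1
    · exact h1
    · rw [h1] at h; exact absurd h (lt_irrefl _)
    · exact absurd (hmono _ _ h1) (by omega)
  have hinj : Function.Injective ρ := by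
    intro x y h
    rcases htot x y with h1 | h1 | h1
    · have := hmono _ _ h1; omega
    · exact h1
    · have := hmono _ _ h1; omega
  have hInf : (range ρ).Infinite := Set.infinite_range_of_injective hinj
  have : Infinite (range ρ) := hInf.to_subtype
  let iso := Nat.Subtype.orderIsoOfNat (range ρ)
  let E := Equiv.ofInjective ρ hinj
  refine ⟨fun n => E.symm (iso n), (iso.toEquiv.trans E.symm).bijective, ?_⟩
  intro m n
  rw [hiff]
  have h1 : ∀ k, ρ (E.symm (iso k)) = (iso k : ℕ) := by
    intro k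
    have := congrArg Subtype.val (E.apply_symm_apply (iso k))
    exact this
  rw [h1, h1, Subtype.coe_lt_coe]
  exact iso.lt_iff_lt

/-- `(Y, d)` is generated by a labelled ray. -/
def GenByRay (Y : Type u) [MetricSpace Y] : Prop :=
  ∃ (R : SimpleGraph Y) (l : Y → ℝ), IsRay R ∧ (∀ y, 0 ≤ l y) ∧ Generates R l

/-- `(Y, d)` is generated by a labelled starlike rayless tree. -/
def GenByStarlikeRaylessTree (Y : Type u) [MetricSpace Y] : Prop :=
  ∃ (T : SimpleGraph Y) (l : Y → ℝ), T.IsTree ∧ Starlike T ∧ Rayless T ∧ (∀ y, 0 ≤ l y) ∧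
    Generates T l

variable {X : Type u} [MetricSpace X] [IsUltrametricDist X]

theorem forward [CompleteSpace X] {X₀ : Set X} (hne : X₀ ≠ univ) (htb : TotallyBounded X₀)
    (hdense : Dense X₀) (hray : GenByRay X₀) : CompactSpace X ∧ GenByStarlikeRaylessTree X := by
  have htb' : TotallyBounded (univ : Set X) := by
    rw [← hdense.closure_eq]; exact htb.closure
  have hcomp : CompactSpace X :=
    ⟨isCompact_iff_totallyBounded_isComplete.mpr ⟨htb', isClosed_univ.isComplete⟩⟩
  refine ⟨hcomp, ?_⟩
  obtain ⟨R, l, ⟨x, hx, hR⟩, hl, hgen⟩ := hray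
  rw [ray_generates_iff hx hR] at hgen
  set y : ℕ → X := fun n => (x n : X) with hy
  set l' : ℕ → ℝ := fun n => l (x n) with hl'
  have hrange : range y = X₀ := by
    ext z
    constructor
    · rintro ⟨n, rfl⟩
      exact (x n).2
    · intro hz
      obtain ⟨n, hn⟩ := hx.2 ⟨z, hz⟩
      exact ⟨n, congrArg Subtype.val hn⟩
  have hinj : Function.Injective y := fun m n h => hx.1 (Subtype.ext h)
  have hd : ∀ m n, m < n → IsGreatest (l' '' Icc m n) (Dist.dist (y m) (y n)) := hgen
  have hfin : ∀ ε : ℝ, 0 < ε → {n | ε ≤ l' n}.Finite := fun ε hε =>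
    finite_large hd (by rw [hrange]; exact htb) hε
  have hcau : CauchySeq y := by
    rw [Metric.cauchySeq_iff]
    intro ε hε
    obtain ⟨N, hN⟩ := (hfin ε hε).bddAbove
    have key : ∀ m n, N + 1 ≤ m → m < n → Dist.dist (y m) (y n) < ε := by
      intro m n hm hmn
      obtain ⟨k, hk, hk'⟩ := (hd m n hmn).1
      rw [← hk']
      by_contra h
      have h1 := hN (not_lt.mp h : k ∈ {n | ε ≤ l' n})
      have h2 := hk.1
      omega
    refine ⟨N + 1, ?_⟩
    intro m hm n hn
    rcases lt_trichotomy m n with h | h | h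
    · exact key m n hm h
    · rw [h, _root_.dist_self]; exact hε
    · rw [_root_.dist_comm]; exact key n m hn h
  obtain ⟨c, hc⟩ := cauchySeq_tendsto_of_complete hcau
  have hall : ∀ z, z = c ∨ ∃ n, z = y n := by
    intro z
    have h1 : IsClosed (insert c (range y)) := hc.isCompact_insert_range.isClosed
    have h2 : z ∈ closure (range y) := by
      rw [hrange, hdense.closure_eq]; exact mem_univ z
    rcases closure_minimal (subset_insert c (range y)) h1 h2 with h | ⟨n, h⟩
    · exact Or.inl h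
    · exact Or.inr ⟨n, h.symm⟩
  have hcx : ∀ n, y n ≠ c := by
    intro n hn
    apply hne
    rw [← hrange, eq_univ_iff_forall]
    intro z
    rcases hall z with h | ⟨m, h⟩
    · exact ⟨n, by rw [h, hn]⟩
    · exact ⟨m, h.symm⟩
  have D : Data y l' c := ⟨fun n => hl _, hinj, hd, hfin, hc, hcx, hall⟩
  exact ⟨T D, lab D, T_isTree D, T_starlike D, T_rayless D, lab_nonneg D, T_generates D⟩

theorem backward [Infinite X] [CompactSpace X] (h : GenByStarlikeRaylessTree X) :
    ∃ X₀ : Set X, X₀ ≠ univ ∧ TotallyBounded X₀ ∧ Dense X₀ ∧ GenByRay X₀ := by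
  obtain ⟨T, l, hT, ⟨c, _, hc⟩, _, hl, hgen⟩ := h
  have hdeg : ∀ v, v ≠ c → (T.neighborSet v).encard ≤ 2 := by
    intro v hv
    by_contra h
    exact hv (hc v (not_le.mp h))
  have A : B.Lab T c (B.par hT c) (B.dep hT c) l := ⟨B.leg_of_tree hT c hdeg, hgen, hl, hdeg⟩
  have hdense : Dense ({c}ᶜ : Set X) := by
    rw [Metric.dense_iff]
    intro x ε hε
    by_cases hx : x = c
    · subst hx
      obtain ⟨y, hy, hy'⟩ := B.exists_near A hε
      exact ⟨y, hy', hy⟩
    · exact ⟨x, Metric.mem_ball_self hε, hx⟩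
  refine ⟨{c}ᶜ, ?_, ?_, hdense, ?_⟩
  · intro h
    have : c ∈ ({c}ᶜ : Set X) := by rw [h]; exact mem_univ c
    exact this rfl
  · exact (isCompact_univ (X := X)).totallyBounded.subset (subset_univ _)
  · set r : ({c}ᶜ : Set X) → ({c}ᶜ : Set X) → Prop :=
      fun x y => B.r c (B.par hT c) (B.dep hT c) (x : X) (y : X) with hr
    have hinf : Infinite ({c}ᶜ : Set X) := (Set.finite_singleton c).infinite_compl.to_subtype
    have hfin : ∀ x : ({c}ᶜ : Set X), {z | r z x}.Finite := by
      intro x
      have hpos : 0 < Dist.dist (x : X) c := dist_pos.mpr x.2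
      have h1 := B.finite_far A hpos
      refine Set.Finite.of_finite_image (f := Subtype.val) (h1.subset ?_) Subtype.val_injective.injOn
      rintro z ⟨w, hw, rfl⟩
      rcases hw with hw | ⟨hw, _⟩
      · exact le_of_lt hw
      · exact hw.ge
    obtain ⟨e, he, hre⟩ := exists_enum r (fun x => B.r_irrefl (x : X))
      (fun x y z => B.r_trans) (fun x y => by
        rcases B.r_total A x.2 y.2 with h | h | h
        · exact Or.inl h
        · exact Or.inr (Or.inl (Subtype.ext h))
        · exact Or.inr (Or.inr h)) hfin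
    let R : SimpleGraph ({c}ᶜ : Set X) :=
      { Adj := fun u v => ∃ n, (u = e n ∧ v = e (n + 1)) ∨ (v = e n ∧ u = e (n + 1))
        symm := ⟨fun u v ⟨n, h⟩ => ⟨n, h.symm⟩⟩
        loopless := ⟨by
          rintro u ⟨n, ⟨h1, h2⟩ | ⟨h1, h2⟩⟩
          · have := he.1 (h1.symm.trans h2); omega
          · have := he.1 (h1.symm.trans h2); omega⟩ }
    have hR : ∀ u v, R.Adj u v ↔ ∃ n, (u = e n ∧ v = e (n + 1)) ∨ (v = e n ∧ u = e (n + 1)) :=
      fun u v => Iff.rfl
    refine ⟨R, fun v => l v, ⟨e, he, hR⟩, fun v => hl _, ?_⟩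
    rw [ray_generates_iff he hR]
    intro m n hmn
    have h1 := B.dist_greatest A (e m).2 (e n).2 ((hre m n).mpr hmn)
    have h2 : l '' {z | z ≠ c ∧ (z = e m ∨ B.r c (B.par hT c) (B.dep hT c) (e m) z) ∧
        (z = e n ∨ B.r c (B.par hT c) (B.dep hT c) z (e n))} =
        (fun k => l ((e k : ({c}ᶜ : Set X)) : X)) '' Icc m n := by
      ext v
      constructor
      · rintro ⟨z, ⟨hz, hz1, hz2⟩, rfl⟩
        obtain ⟨k, hk⟩ := he.2 ⟨z, hz⟩
        have hk' : (e k : X) = z := congrArg Subtype.val hk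
        refine ⟨k, ⟨?_, ?_⟩, by simp only; rw [hk']⟩
        · rcases hz1 with h | h
          · have : e k = e m := Subtype.ext (hk'.trans h)
            exact (he.1 this).ge
          · rw [← hk'] at h
            exact ((hre m k).mp h).le
        · rcases hz2 with h | h
          · have : e k = e n := Subtype.ext (hk'.trans h)
            exact (he.1 this).le
          · rw [← hk'] at h
            exact ((hre k n).mp h).le
      · rintro ⟨k, ⟨hk1, hk2⟩, rfl⟩
        refine ⟨(e k : X), ⟨(e k).2, ?_, ?_⟩, rfl⟩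
        · rcases eq_or_lt_of_le hk1 with h | h
          · left; rw [h]
          · right; exact (hre m k).mpr h
        · rcases eq_or_lt_of_le hk2 with h | h
          · left; rw [h]
          · right; exact (hre k n).mpr h
    rw [h2] at h1
    exact h1

/-- The equivalence of (i) and (ii). -/
theorem main (X : Type u) [MetricSpace X] [IsUltrametricDist X] [Infinite X] :
    (CompleteSpace X ∧ ∃ X₀ : Set X, X₀ ≠ univ ∧ TotallyBounded X₀ ∧ Dense X₀ ∧ GenByRay X₀) ↔
      (CompactSpace X ∧ GenByStarlikeRaylessTree X) := by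
  constructor
  · rintro ⟨_, X₀, h1, h2, h3, h4⟩
    exact forward h1 h2 h3 h4
  · rintro ⟨_, h⟩
    exact ⟨inferInstance, backward h⟩

end Q45.RayTree
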